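import Pool.Agent.Lib.MP_df705a_gt.Pin.F10

/-!
# The bad points of a metric, Kato version
-/

open scoped Manifold ContDiff Topology
open Set Bundle Module

noncomputable section

namespace Pool.Agent.Lib.MP_df705a_gt.Kat

open Pool.Agent.Lib.MP_df705a_gt.Twist Pool.Agent.Lib.MP_df705a_gt.Perm
open Pool.Agent.Lib.MP_df705a_gt.Pin
open Pool.Agent.Lib.MP_df705a_gt.Coll (Met)

variable {E : Type*} [NormedAddCommGroup E] [NormedSpace ℝ E] [FiniteDimensional ℝ E]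
  {M : Type*} [TopologicalSpace M] [ChartedSpace E M] [IsManifold 𝓘(ℝ, E) ∞ M]

/-- The function `τ = ρ⁻² - Δw / ((n + 1) w)`, where `n` is the dimension of `M`. -/
def tau (g : Met E M) (ρ w : M → ℝ) (b : M) : ℝ :=
  1 / ρ b ^ 2 - Lap g w b / (((finrank ℝ E : ℝ) + 1) * w b)

/-- The point `b` is bad: `τ(b) ≥ 0` and `Ric ≥ -τ(b) g` at `b` do not both hold, or
`scal(b) u(b) - γ Δu(b) ≤ C (1 + γ) ρ(b)⁻² u(b)`. -/
def BadK (g : Met E M) (C γ : ℝ) (ρ w u : M → ℝ) (b : M) : Prop :=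
  ¬ (0 ≤ tau g ρ w b ∧ MRicGe g (tau g ρ w b) b) ∨
    Scal g b * u b - γ * Lap g u b ≤ C * (1 + γ) / ρ b ^ 2 * u b

end Pool.Agent.Lib.MP_df705a_gt.Kat
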