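import Pool.Agent.Lib.MP_df705a_gt.Mg.G003
import Pool.Agent.Lib.MP_df705a_gt.Mg.G015
import Pool.Agent.Lib.MP_df705a_gt.Mg.G006
import Pool.Agent.Lib.MP_df705a_gt.Mg.G002
import Pool.Agent.Lib.MP_df705a_gt.Mg.G005

/-!
# Lower bounds of the Ricci curvature in the sense of Kato: volume of balls of `W² h`
-/

open scoped Manifold ContDiff Topology
open Set Bundle Module Filter MeasureTheory

noncomputable section

set_option linter.unusedSectionVars false

namespace Pool.Agent.Lib.MP_df705a_gt.Kat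

open Pool.Agent.Lib.MP_df705a_gt.Twist Pool.Agent.Lib.MP_df705a_gt.Perm
open Pool.Agent.Lib.MP_df705a_gt.Pin Pool.Agent.Lib.MP_df705a_gt.Pin.A

variable {E : Type*} [NormedAddCommGroup E] [NormedSpace ℝ E] [FiniteDimensional ℝ E]
  {h H : Curv.Coeff E} {W : E → ℝ} {Ex : E → E → E} [MeasurableSpace E] [BorelSpace E]

theorem vol_image_le2 (hm : Curv.IsMetric h) (hE : IsExp H Ex) (p : E) {s : Set E}
    (hs : MeasurableSet s) :
    vol h (Ex p '' s) ≤ ∫⁻ v in s, ENNReal.ofReal (Pin.A.dens h Ex p v) ∂(finBasis ℝ E).addHaar := by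
  unfold vol
  rw [withDensity_apply']
  refine (lintegral_image_le ((hE.smooth_at p).of_le (by simp)) hs (AZ1bAux.meas hm) _).trans
    (le_of_eq ?_)
  refine lintegral_congr (fun v => ?_)
  rw [AZ1bAux.dens hm]

theorem vol_image_eq2 (hm : Curv.IsMetric h) (hE : IsExp H Ex) (p : E) {s : Set E}
    (hs : MeasurableSet s) (hi : InjOn (Ex p) s) :
    vol h (Ex p '' s) = ∫⁻ v in s, ENNReal.ofReal (Pin.A.dens h Ex p v) ∂(finBasis ℝ E).addHaar := by
  unfold vol
  rw [withDensity_apply', lintegral_image_eq_lintegral_abs_det_fderiv_mul _ hs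
    (fun v _ => (((hE.smooth_at p).differentiable (by simp)) v).hasFDerivAt.hasFDerivWithinAt) hi]
  refine lintegral_congr (fun v => ?_)
  rw [AZ1bAux.dens hm]

/-- The comparison of densities for vectors of length at most `R`. -/
theorem dens_le_R (hm : Curv.IsMetric h) {A : ℝ} (hW : Wt W A)
    (hE : IsExp (cm h W) Ex) (hn : 2 ≤ finrank ℝ E) (p : E) {κ R : ℝ} (hκ : 0 ≤ κ)
    (hric : ∀ y, dh (cm h W) p y ≤ R → Gd h W κ y) {v : E} (hv : Seg (cm h W) Ex p v)
    (hvR : nm (cm h W) p v ≤ R) {t : ℝ} (ht : t ∈ Icc (0 : ℝ) 1) :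
    Pin.A.dens h Ex p v ≤ CD (finrank ℝ E) A κ R * Pin.A.dens h Ex p (t • v) := by
  have hH := isMetric_cm hm hW.sm hW.pos
  have h1 := seg_dens_le hm hW hE hn hv (t := t) hκ (fun s hs => hric _ (by
    have h2 := hE.dist_le_one hH p (s • v)
    rw [nm_smul, abs_of_nonneg hs.1] at h2
    have h3 : s * nm (cm h W) p v ≤ 1 * nm (cm h W) p v :=
      mul_le_mul_of_nonneg_right hs.2 (nm_nonneg (cm h W) p v)
    linarith)) ht
  exact h1.trans (mul_le_mul_of_nonneg_right
    (CD_mono hn hκ (nm_nonneg (cm h W) p v) hvR) (dens_nonneg h Ex p _))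

/-- The volume of a ball. -/
theorem vol_ball_le2 (hm : Curv.IsMetric h) (hP : Proper h) {A : ℝ} (hW : Wt W A)
    (hE : IsExp (cm h W) Ex) (hn : 2 ≤ finrank ℝ E) (p : E) {κ R : ℝ} (hκ : 0 ≤ κ) (hR : 0 < R)
    (hric : ∀ y, dh (cm h W) p y ≤ R → Gd h W κ y) :
    vol h (ballh (cm h W) p R) ≤
      ENNReal.ofReal (CD (finrank ℝ E) A κ R * R ^ finrank ℝ E) * om E := by
  have hH := isMetric_cm hm hW.sm hW.pos
  have hPH := proper_cm hm hP hW.sm hW.one_le
  have hc : Continuous fun v => nm (cm h W) p v :=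
    (nm_continuous hH).comp (Continuous.prodMk_right p)
  have hs : MeasurableSet {v | Seg (cm h W) Ex p v ∧ nm (cm h W) p v < R} :=
    (measurableSet_seg hH hE p).inter (isOpen_lt hc continuous_const).measurableSet
  rw [ballh_eq_image hH hPH hE p R]
  have hC0 : 0 ≤ CD (finrank ℝ E) A κ R := CD_nonneg _ _ _ _
  calc vol h (Ex p '' {v | Seg (cm h W) Ex p v ∧ nm (cm h W) p v < R})
      ≤ ∫⁻ v in {v | Seg (cm h W) Ex p v ∧ nm (cm h W) p v < R},
          ENNReal.ofReal (Pin.A.dens h Ex p v) ∂(finBasis ℝ E).addHaar :=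
        vol_image_le2 hm hE p hs
    _ ≤ ∫⁻ _ in {v | Seg (cm h W) Ex p v ∧ nm (cm h W) p v < R},
          ENNReal.ofReal (CD (finrank ℝ E) A κ R * √ (h p).det) ∂(finBasis ℝ E).addHaar := by
        apply setLIntegral_mono' hs
        intro v hv
        refine ENNReal.ofReal_le_ofReal ?_
        have h1 := dens_le_R hm hW hE hn p hκ hric hv.1 hv.2.le (t := 0)
          ⟨le_refl _, zero_le_one⟩
        rwa [zero_smul, dens_zero2 hm hE] at h1
    _ = ENNReal.ofReal (CD (finrank ℝ E) A κ R) *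
          ((finBasis ℝ E).addHaar {v | Seg (cm h W) Ex p v ∧ nm (cm h W) p v < R} *
            ENNReal.ofReal (√ (h p).det)) := by
        rw [setLIntegral_const, ENNReal.ofReal_mul hC0]
        ring
    _ ≤ ENNReal.ofReal (CD (finrank ℝ E) A κ R) *
          ((finBasis ℝ E).addHaar {v | nm h p v < R} * ENNReal.ofReal (√ (h p).det)) := by
        refine mul_le_mul' le_rfl (mul_le_mul' (measure_mono fun v hv => ?_) le_rfl)
        have h1 : nm (cm h W) p v < R := hv.2
        rw [nm_cm h p v (hW.pos p).le] at h1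
        have h2 : nm h p v ≤ W p * nm h p v := le_mul_of_one_le_left (nm_nonneg h p v) (hW.one_le p)
        exact h2.trans_lt h1
    _ = _ := by
        rw [tangent_ball hm p hR, ENNReal.ofReal_mul hC0, mul_assoc]

/-- Contraction of a set of end points of shortest geodesics. -/
theorem vol_contract2 (hm : Curv.IsMetric h) {A : ℝ} (hW : Wt W A)
    (hE : IsExp (cm h W) Ex) (hn : 2 ≤ finrank ℝ E) (p : E)
    {κ R t : ℝ} (hκ : 0 ≤ κ) (ht : 0 < t) (ht1 : t < 1)
    (hric : ∀ y, dh (cm h W) p y ≤ R → Gd h W κ y) {s : Set E}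
    (hs : MeasurableSet s) (hsR : ∀ v ∈ s, Seg (cm h W) Ex p v ∧ nm (cm h W) p v ≤ R) :
    vol h (Ex p '' s) ≤ ENNReal.ofReal (CD (finrank ℝ E) A κ R * (1 / t) ^ finrank ℝ E) *
      vol h (Ex p '' ((fun v => t • v) '' s)) := by
  have hH := isMetric_cm hm hW.sm hW.pos
  have htI : t ∈ Icc (0 : ℝ) 1 := ⟨ht.le, ht1.le⟩
  have hC0 : 0 ≤ CD (finrank ℝ E) A κ R := CD_nonneg _ _ _ _
  have hst : MeasurableSet ((fun v : E => t • v) '' s) := by
    have h1 : MeasurableEmbedding fun v : E => t • v :=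
      (Homeomorph.smulOfNeZero t ht.ne').measurableEmbedding
    exact h1.measurableSet_image.2 hs
  have hinj : InjOn (Ex p) ((fun v : E => t • v) '' s) := by
    refine (Seg.injOn hH hE p ht.le ht1).mono ?_
    rintro _ ⟨v, hv, rfl⟩
    exact ⟨v, (hsR v hv).1, rfl⟩
  have hle : ∀ v ∈ s, Pin.A.dens h Ex p v ≤ CD (finrank ℝ E) A κ R * Pin.A.dens h Ex p (t • v) :=
    fun v hv => dens_le_R hm hW hE hn p hκ hric (hsR v hv).1 (hsR v hv).2 htI
  have hcst : ENNReal.ofReal ((1 / t) ^ finrank ℝ E) * ENNReal.ofReal (t ^ finrank ℝ E) = 1 := by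
    rw [← ENNReal.ofReal_mul (by positivity), ← mul_pow, one_div, inv_mul_cancel₀ ht.ne', one_pow,
      ENNReal.ofReal_one]
  calc vol h (Ex p '' s)
      ≤ ∫⁻ v in s, ENNReal.ofReal (Pin.A.dens h Ex p v) ∂(finBasis ℝ E).addHaar :=
        vol_image_le2 hm hE p hs
    _ ≤ ∫⁻ v in s, ENNReal.ofReal (CD (finrank ℝ E) A κ R) *
          ENNReal.ofReal (Pin.A.dens h Ex p (t • v)) ∂(finBasis ℝ E).addHaar := by
        apply setLIntegral_mono' hs
        intro v hv
        rw [← ENNReal.ofReal_mul hC0]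
        exact ENNReal.ofReal_le_ofReal (hle v hv)
    _ = ENNReal.ofReal (CD (finrank ℝ E) A κ R) *
          ∫⁻ v in s, ENNReal.ofReal (Pin.A.dens h Ex p (t • v)) ∂(finBasis ℝ E).addHaar :=
        lintegral_const_mul' _ _ ENNReal.ofReal_ne_top
    _ = ENNReal.ofReal (CD (finrank ℝ E) A κ R * (1 / t) ^ finrank ℝ E) *
          (ENNReal.ofReal (t ^ finrank ℝ E) *
            ∫⁻ v in s, ENNReal.ofReal (Pin.A.dens h Ex p (t • v)) ∂(finBasis ℝ E).addHaar) := by
        rw [ENNReal.ofReal_mul hC0, mul_assoc, ← mul_assoc (ENNReal.ofReal _)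
          (ENNReal.ofReal (t ^ finrank ℝ E)), hcst, one_mul]
    _ = ENNReal.ofReal (CD (finrank ℝ E) A κ R * (1 / t) ^ finrank ℝ E) *
          vol h (Ex p '' ((fun v => t • v) '' s)) := by
        rw [← lintegral_smul_image ht hs (fun w => ENNReal.ofReal (Pin.A.dens h Ex p w)),
          vol_image_eq2 hm hE p hst hinj]

/-- The theorem of Bishop and Gromov. -/
theorem bishop_gromov2 (hm : Curv.IsMetric h) (hP : Proper h) {A : ℝ} (hW : Wt W A)
    (hE : IsExp (cm h W) Ex) (hn : 2 ≤ finrank ℝ E) (p : E)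
    {κ r R : ℝ} (hκ : 0 ≤ κ) (hr : 0 < r) (hrR : r ≤ R)
    (hric : ∀ y, dh (cm h W) p y ≤ R → Gd h W κ y) :
    vol h (ballh (cm h W) p R) ≤
      ENNReal.ofReal (CD (finrank ℝ E) A κ R * (R / r) ^ finrank ℝ E) *
      vol h (ballh (cm h W) p r) := by
  have hH := isMetric_cm hm hW.sm hW.pos
  have hPH := proper_cm hm hP hW.sm hW.one_le
  rcases eq_or_lt_of_le hrR with rfl | hlt
  · have h1 : (1 : ENNReal) ≤
        ENNReal.ofReal (CD (finrank ℝ E) A κ r * (r / r) ^ finrank ℝ E) := by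
      rw [div_self hr.ne', one_pow, mul_one, ← ENNReal.ofReal_one]
      exact ENNReal.ofReal_le_ofReal (CD_one_le hn hW.one_le' hκ r)
    calc vol h (ballh (cm h W) p r) = 1 * vol h (ballh (cm h W) p r) := (one_mul _).symm
      _ ≤ _ := mul_le_mul' h1 le_rfl
  · have hR : 0 < R := hr.trans hlt
    have ht : 0 < r / R := div_pos hr hR
    have ht1 : r / R < 1 := (div_lt_one hR).2 hlt
    have hc : Continuous fun v => nm (cm h W) p v :=
      (nm_continuous hH).comp (Continuous.prodMk_right p)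
    have hs : MeasurableSet {v | Seg (cm h W) Ex p v ∧ nm (cm h W) p v < R} :=
      (measurableSet_seg hH hE p).inter (isOpen_lt hc continuous_const).measurableSet
    have h1 := vol_contract2 hm hW hE hn p (t := r / R) hκ ht ht1 hric hs
      (fun v hv => ⟨hv.1, hv.2.le⟩)
    rw [← ballh_eq_image hH hPH hE p R] at h1
    refine h1.trans ?_
    rw [one_div_div]
    refine mul_le_mul' le_rfl (measure_mono ?_)
    rw [ballh_eq_image hH hPH hE p r]
    apply image_mono
    rintro _ ⟨v, ⟨hv1, hv2⟩, rfl⟩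
    refine ⟨hv1.smul hH hE ⟨ht.le, ht1.le⟩, ?_⟩
    rw [nm_smul, abs_of_pos ht, div_mul_eq_mul_div, div_lt_iff₀ hR]
    exact mul_lt_mul_of_pos_left hv2 hr

end Pool.Agent.Lib.MP_df705a_gt.Kat
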