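import Pool.Agent.Lib.MP_df705a_gt.Mg.G028
import Pool.Agent.Lib.MP_df705a_gt.Mg.G018
import Pool.Agent.Lib.MP_df705a_gt.Mg.G014
import Pool.Agent.Lib.MP_df705a_gt.Mg.G019

/-!
# Lower bounds of the Ricci curvature in the sense of Kato: the weighted formula of Bochner
-/

open scoped Manifold ContDiff Topology
open Set Bundle Module Filter MeasureTheory

noncomputable section

set_option linter.unusedSectionVars false

namespace Pool.Agent.Lib.MP_df705a_gt.Kat

open Pool.Agent.Lib.MP_df705a_gt.Twist Pool.Agent.Lib.MP_df705a_gt.Perm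
open Pool.Agent.Lib.MP_df705a_gt.Pin
open Pool.Agent.Lib.MP_df705a_gt.Coll (trM ipM)
open Pool.Agent.Lib.MP_df705a_gt.Coll.T (ddC mat pull RM SmF)

variable {E : Type*} [NormedAddCommGroup E] [NormedSpace ℝ E] [FiniteDimensional ℝ E]
  {h : Curv.Coeff E} {f : Fin (finrank ℝ E) → E → ℝ} {ψ W : E → ℝ} {K c : ℝ} {x : E}
  [MeasurableSpace E] [BorelSpace E]

theorem gradC_div_W (hh : Curv.IsMetric h) {V : E → ℝ} (hV : DifferentiableAt ℝ V x)
    (hW : DifferentiableAt ℝ W x) (hWx : W x ≠ 0) :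
    gradC h (fun y => V y * (W y)⁻¹) W x =
      gradC h V W x / W x - V x * (gradC h W W x / W x ^ 2) := by
  have h1 : DifferentiableAt ℝ (fun y => (W y)⁻¹) x := hW.inv hWx
  rw [gradC_mul_left hh hV h1, gradC_comp_left hh (φ := fun t : ℝ => t⁻¹) hW
    (differentiableAt_inv hWx)]
  rw [deriv_inv]
  field_simp
  ring

/-- The integral of `V τ`. -/
theorem integral_ta (hh : Curv.IsMetric h) (hW : ContDiff ℝ ∞ W) (hW0 : ∀ x, 0 < W x)
    (hn : 0 < finrank ℝ E) {V : E → ℝ} (hV : ContDiff ℝ ∞ V) (hc : HasCompactSupport V) :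
    ∫ x, V x * ta h W 1 x ∂(vol h) = ∫ x, (V x + (1 / (finrank ℝ E : ℝ)) *
      (gradC h V W x / W x - V x * (gradC h W W x / W x ^ 2))) ∂(vol h) := by
  have hN0 : (finrank ℝ E : ℝ) ≠ 0 := by
    have : (0 : ℝ) < finrank ℝ E := by exact_mod_cast hn
    exact this.ne'
  set N : ℝ := (finrank ℝ E : ℝ) with hN
  have hWi : ContDiff ℝ ∞ fun y => (W y)⁻¹ := hW.inv fun y => (hW0 y).ne'
  have hφ : ContDiff ℝ ∞ fun y => V y * (W y)⁻¹ := hV.mul hWi
  have hφc : HasCompactSupport fun y => V y * (W y)⁻¹ := hc.mul_right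
  have g0 := green hh hW hφ hφc
  have key : ∀ x, V x * ta h W 1 x = (V x + (1 / N) *
      (gradC h V W x / W x - V x * (gradC h W W x / W x ^ 2))) -
      (1 / N) * (V x * (W x)⁻¹ * lapC h W x + gradC h (fun y => V y * (W y)⁻¹) W x) := by
    intro x
    rw [gradC_div_W hh (hV.differentiable (by simp)).differentiableAt
      (hW.differentiable (by simp)).differentiableAt (hW0 x).ne']
    unfold ta
    rw [← hN]
    have := (hW0 x).ne'
    field_simp
    ring
  have i1 : Integrable (fun x => V x * (W x)⁻¹ * lapC h W x +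
      gradC h (fun y => V y * (W y)⁻¹) W x) (vol h) :=
    (integrable_vol hh (hφ.continuous.mul (contDiff_lapC hh hW).continuous) hφc.mul_right).add
      (integrable_vol hh (contDiff_gradC hh hφ hW).continuous (hasCompactSupport_gradC hφc _))
  have i2 : Integrable (fun x => V x + (1 / N) *
      (gradC h V W x / W x - V x * (gradC h W W x / W x ^ 2))) (vol h) := by
    refine (integrable_vol hh hV.continuous hc).add (Integrable.const_mul ?_ _)
    refine Integrable.sub ?_ ?_
    · exact integrable_vol hh ((contDiff_gradC hh hV hW).continuous.div hW.continuous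
        fun y => (hW0 y).ne') (by
          have h1 : HasCompactSupport fun x => gradC h V W x * (W x)⁻¹ :=
            (hasCompactSupport_gradC hc _).mul_right
          simpa [div_eq_mul_inv] using h1)
    · exact integrable_vol hh (hV.continuous.mul ((contDiff_gradC hh hW hW).continuous.div
        (hW.continuous.pow 2) fun y => pow_ne_zero 2 (hW0 y).ne')) hc.mul_right
  rw [integral_congr_ae (Eventually.of_forall key), integral_sub i2 (i1.const_mul _),
    integral_const_mul, g0]
  ring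

/-- `∫ ψ^M P^q (H + (R + τ P)) ≤ C ∫ (ψ^(M-2) P^(q+1) + ψ^M P^q)`, `M = 2 (m + 2)`. -/
theorem exists_bI_le2 (E : Type*) [NormedAddCommGroup E] [NormedSpace ℝ E] [FiniteDimensional ℝ E]
    [MeasurableSpace E] [BorelSpace E] (hE : 2 ≤ finrank ℝ E) (K c : ℝ) (m q : ℕ)
    (hq : q + 1 ≤ finrank ℝ E) : ∃ C : ℝ, 0 ≤ C ∧
    ∀ (h : Curv.Coeff E) (f : Fin (finrank ℝ E) → E → ℝ) (ψ W : E → ℝ), Loc2 h f ψ W K c →
      bI2 h f ψ W (m + 2) q ≤ C * (aI h f ψ (m + 1) (q + 1) + aI h f ψ (m + 2) q) := by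
  classical
  set n : ℝ := (finrank ℝ E : ℝ) with hn
  have hn2 : (2 : ℝ) ≤ n := by rw [hn]; exact_mod_cast hE
  have hn0 : (0 : ℝ) ≤ n := by linarith
  have hqn : (q : ℝ) + 1 ≤ n := by rw [hn]; exact_mod_cast hq
  set C1 : ℝ := 7 * (2 * (m + 2 : ℝ)) ^ 2 * c ^ 2 with hC1
  set C2 : ℝ := K ^ 2 + (K * (2 * (m + 2 : ℝ)) * c) ^ 2 + 1 + 4 * (n + 1) * K ^ 2 * q ^ 2 with hC2
  have hC1' : 0 ≤ C1 := by positivity
  have hC2' : 0 ≤ C2 := by positivity
  refine ⟨(32 / 5) * (C1 + n * C2 + 1), by positivity, fun h f ψ W L => ?_⟩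
  have hv := L.contDiff_weight (m + 2) q
  have hvc := L.hasCompactSupport_weight (m := m + 2) (by omega) q
  have hV := L.contDiff_weight (m + 2) (q + 1)
  have hVc := L.hasCompactSupport_weight (m := m + 2) (by omega) (q + 1)
  have hid := integral_HR L.met L.sm hv hvc
  have hta := integral_ta L.met L.wsm L.wpos (by omega) hV hVc
  rw [← hn] at hta
  have hHc := continuous_HH L.met L.sm
  have hRc := continuous_RR L.met L.sm
  have hTc := continuous_ta L.met L.wsm L.wpos 1
  have hRTc := continuous_RT L.met L.sm L.wsm L.wpos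
  have hPc : Continuous (PP h f) := (contDiff_PP L.met L.sm).continuous
  -- integrability
  have i1 : Integrable (fun x => ψ x ^ (2 * (m + 2)) * PP h f x ^ q * HH h f x) (vol h) :=
    integrable_vol L.met (hv.continuous.mul hHc) hvc.mul_right
  have i2 : Integrable (fun x => ψ x ^ (2 * (m + 2)) * PP h f x ^ q * RT h W f x) (vol h) :=
    integrable_vol L.met (hv.continuous.mul hRTc) hvc.mul_right
  have i3 : Integrable (fun x => ψ x ^ (2 * (m + 2)) * PP h f x ^ (q + 1)) (vol h) :=
    integrable_vol L.met hV.continuous hVc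
  have i4 : Integrable (fun x => ψ x ^ (2 * (m + 1)) * PP h f x ^ (q + 1)) (vol h) :=
    integrable_vol L.met (L.contDiff_weight (m + 1) (q + 1)).continuous
      (L.hasCompactSupport_weight (by omega) _)
  have i5 : Integrable (fun x => ψ x ^ (2 * (m + 2)) * PP h f x ^ q) (vol h) :=
    integrable_vol L.met hv.continuous hvc
  have i6 : Integrable (fun x => ψ x ^ (2 * (m + 2)) * PP h f x ^ (q + 1) * ta h W 1 x) (vol h) :=
    integrable_vol L.met (hV.continuous.mul hTc) hVc.mul_right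
  have i7 : Integrable (fun x => ψ x ^ (2 * (m + 2)) * PP h f x ^ q *
      (HH h f x + RR h f x)) (vol h) :=
    integrable_vol L.met (hv.continuous.mul (hHc.add hRc)) hvc.mul_right
  -- pointwise estimate
  have hpt : ∀ x, (- (1 / 2) * gradC h (fun x => ψ x ^ (2 * (m + 2)) * PP h f x ^ q) (PP h f) x +
        ∑ i, ((ψ x ^ (2 * (m + 2)) * PP h f x ^ q) * lapC h (f i) x ^ 2 +
          lapC h (f i) x * gradC h (fun x => ψ x ^ (2 * (m + 2)) * PP h f x ^ q) (f i) x)) +
      (ψ x ^ (2 * (m + 2)) * PP h f x ^ (q + 1) + (1 / n) *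
        (gradC h (fun x => ψ x ^ (2 * (m + 2)) * PP h f x ^ (q + 1)) W x / W x -
          ψ x ^ (2 * (m + 2)) * PP h f x ^ (q + 1) * (gradC h W W x / W x ^ 2))) ≤
      (27 / 32) * (ψ x ^ (2 * (m + 2)) * PP h f x ^ q * HH h f x) +
        (C1 + n * C2 + 1) * (ψ x ^ (2 * (m + 1)) * PP h f x ^ (q + 1) +
          ψ x ^ (2 * (m + 2)) * PP h f x ^ q) := by
    intro x
    have hP0 := PP_nonneg L.met f x
    have hH0 := HH_nonneg L.met f x
    have hs0 := L.nonneg x
    have hWx := L.wpos x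
    have hgPP := S3F4Aux.sqrt_PP_le L.met L.sm x
    have hgψ : √ (gradC h ψ ψ x) ≤ c := by
      rw [Real.sqrt_le_left L.c0]
      exact L.grad x
    have hgf := S3F4Aux.sqrt_gf_le L.met f x
    have hb0 := S3F4Aux.gradC_self_nonneg L.met (PP h f) x
    have hg0 := S3F4Aux.gradC_self_nonneg L.met W x
    have ha : |gradC h ψ (PP h f) x| ≤ c * (2 * (√ (PP h f x) * √ (HH h f x))) :=
      (abs_gradC_le L.met ψ (PP h f) x).trans
        (mul_le_mul hgψ hgPP (Real.sqrt_nonneg _) L.c0)
    have hX2 : gradC h W W x / W x ^ 2 = (√ (gradC h W W x) / W x) ^ 2 := by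
      rw [div_pow, Real.sq_sqrt hg0]
    have hd : gradC h ψ W x / W x ≤ c * (√ (gradC h W W x) / W x) := by
      rw [div_le_iff₀ hWx]
      have h1 := (le_abs_self _).trans (abs_gradC_le L.met ψ W x)
      have h2 := mul_le_mul_of_nonneg_right hgψ (Real.sqrt_nonneg (gradC h W W x))
      have h3 : c * (√ (gradC h W W x) / W x) * W x = c * √ (gradC h W W x) := by
        field_simp
      rw [h3]
      exact h1.trans h2
    have he : gradC h (PP h f) W x / W x ≤
        √ (gradC h (PP h f) (PP h f) x) * (√ (gradC h W W x) / W x) := by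
      rw [div_le_iff₀ hWx]
      have h1 := (le_abs_self _).trans (abs_gradC_le L.met (PP h f) W x)
      have h3 : √ (gradC h (PP h f) (PP h f) x) * (√ (gradC h W W x) / W x) * W x =
          √ (gradC h (PP h f) (PP h f) x) * √ (gradC h W W x) := by
        field_simp
      rw [h3]
      exact h1
    have e1 := real_j1 m q hs0 hP0 hH0 L.c0 (div_nonneg (Real.sqrt_nonneg _) hWx.le) hb0 hgPP
      hn2 hqn ha hd he
    rw [← hX2] at e1
    have f1 : gradC h (fun x => ψ x ^ (2 * (m + 2)) * PP h f x ^ (q + 1)) W x / W x =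
        2 * ((m + 2 : ℕ) : ℝ) * ψ x ^ (2 * (m + 2) - 1) * PP h f x ^ (q + 1) *
          (gradC h ψ W x / W x) +
        ((q + 1 : ℕ) : ℝ) * ψ x ^ (2 * (m + 2)) * PP h f x ^ q *
          (gradC h (PP h f) W x / W x) := by
      rw [L.gradC_weight (m + 2) (q + 1) W x, Nat.add_sub_cancel]
      ring
    rw [f1, L.gradC_weight (m + 2) q (PP h f) x]
    have e2 : ∀ i, (ψ x ^ (2 * (m + 2)) * PP h f x ^ q) * lapC h (f i) x ^ 2 +
          lapC h (f i) x * gradC h (fun x => ψ x ^ (2 * (m + 2)) * PP h f x ^ q) (f i) x ≤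
        (1 / (4 * (n + 1))) * (ψ x ^ (2 * (m + 2)) * PP h f x ^ q * HH h f x) +
        C2 * (ψ x ^ (2 * (m + 1)) * PP h f x ^ (q + 1) + ψ x ^ (2 * (m + 2)) * PP h f x ^ q) := by
      intro i
      rw [L.gradC_weight (m + 2) q (f i) x]
      by_cases hψ : ψ x = 0
      · have h1 : 2 * (m + 2) ≠ 0 := by omega
        have h2 : 2 * (m + 1) ≠ 0 := by omega
        have h3 : 2 * (m + 2) - 1 ≠ 0 := by omega
        simp [hψ, h1, h2, h3]
      · have ha' : |gradC h ψ (f i) x| ≤ c * √ (PP h f x) :=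
          (abs_gradC_le L.met ψ (f i) x).trans
            (mul_le_mul hgψ (hgf i) (Real.sqrt_nonneg _) L.c0)
        have hb' : |gradC h (PP h f) (f i) x| ≤ 2 * (√ (PP h f x) * √ (HH h f x)) *
            √ (PP h f x) :=
          (abs_gradC_le L.met (PP h f) (f i) x).trans
            (mul_le_mul hgPP (hgf i) (Real.sqrt_nonneg _) (by positivity))
        exact real_i2 m q hs0 hP0 hH0 L.c0 L.K0 (by linarith : (1 : ℝ) ≤ n + 1)
          (L.lap x hψ i) ha' hb'
    have e3 := Finset.sum_le_sum (s := Finset.univ) fun i _ => e2 i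
    rw [Finset.sum_const, Finset.card_univ, Fintype.card_fin, nsmul_eq_mul, ← hn] at e3
    have hψ2 : ψ x ^ (2 * (m + 2)) * PP h f x ^ (q + 1) ≤
        ψ x ^ (2 * (m + 1)) * PP h f x ^ (q + 1) := by
      refine mul_le_mul_of_nonneg_right ?_ (pow_nonneg hP0 _)
      exact pow_le_pow_of_le_one hs0 (L.le_one x) (by omega)
    set A := ψ x ^ (2 * (m + 2)) * PP h f x ^ q * HH h f x with hA
    set B := ψ x ^ (2 * (m + 1)) * PP h f x ^ (q + 1) with hB
    set D := ψ x ^ (2 * (m + 2)) * PP h f x ^ q with hD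
    have hA0 : 0 ≤ A := by positivity
    have hB0 : 0 ≤ B := by positivity
    have hD0 : 0 ≤ D := by positivity
    have e4 : n * ((1 / (4 * (n + 1))) * A + C2 * (B + D)) ≤ (1 / 4) * A + n * C2 * (B + D) := by
      have h1 : n * (1 / (4 * (n + 1))) ≤ 1 / 4 := by
        rw [mul_one_div, div_le_div_iff₀ (by positivity) (by norm_num)]
        linarith
      nlinarith [mul_le_mul_of_nonneg_right h1 hA0]
    have e5 : 0 ≤ C1 * D := mul_nonneg hC1' hD0
    have e6 : (7 : ℝ) * (2 * (m + 2 : ℝ)) ^ 2 * c ^ 2 * B = C1 * B := by rw [hC1]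
    rw [e6] at e1
    nlinarith [e1, e3, e4, e5, hψ2]
  -- integrate
  have j0 : Integrable (fun x => - (1 / 2) *
        gradC h (fun x => ψ x ^ (2 * (m + 2)) * PP h f x ^ q) (PP h f) x +
        ∑ i, ((ψ x ^ (2 * (m + 2)) * PP h f x ^ q) * lapC h (f i) x ^ 2 +
          lapC h (f i) x * gradC h (fun x => ψ x ^ (2 * (m + 2)) * PP h f x ^ q) (f i) x))
      (vol h) := by
    have j1 : Integrable (gradC h (fun x => ψ x ^ (2 * (m + 2)) * PP h f x ^ q) (PP h f))
        (vol h) := integrable_vol L.met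
          (contDiff_gradC L.met hv (contDiff_PP L.met L.sm)).continuous
          (hasCompactSupport_gradC hvc _)
    refine (j1.const_mul _).add (integrable_finsetSum _ fun i _ => ?_)
    refine Integrable.add ?_ ?_
    · exact integrable_vol L.met
        (hv.continuous.mul ((contDiff_lapC L.met (L.sm i)).continuous.pow 2)) hvc.mul_right
    · exact integrable_vol L.met
        ((contDiff_lapC L.met (L.sm i)).continuous.mul
          (contDiff_gradC L.met hv (L.sm i)).continuous)
        (hasCompactSupport_gradC hvc _).mul_left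
  have j2 : Integrable (fun x => ψ x ^ (2 * (m + 2)) * PP h f x ^ (q + 1) + (1 / n) *
        (gradC h (fun x => ψ x ^ (2 * (m + 2)) * PP h f x ^ (q + 1)) W x / W x -
          ψ x ^ (2 * (m + 2)) * PP h f x ^ (q + 1) * (gradC h W W x / W x ^ 2))) (vol h) := by
    refine i3.add (Integrable.const_mul (Integrable.sub ?_ ?_) _)
    · exact integrable_vol L.met ((contDiff_gradC L.met hV L.wsm).continuous.div L.wsm.continuous
        fun y => (L.wpos y).ne') (by
          have h1 : HasCompactSupport fun x =>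
              gradC h (fun x => ψ x ^ (2 * (m + 2)) * PP h f x ^ (q + 1)) W x * (W x)⁻¹ :=
            (hasCompactSupport_gradC hVc _).mul_right
          simpa [div_eq_mul_inv] using h1)
    · exact integrable_vol L.met (hV.continuous.mul ((contDiff_gradC L.met L.wsm
        L.wsm).continuous.div (L.wsm.continuous.pow 2) fun y => pow_ne_zero 2 (L.wpos y).ne'))
        hVc.mul_right
  have hint := integral_mono (j0.add j2) ((i1.const_mul (27 / 32)).add
    ((i4.add i5).const_mul (C1 + n * C2 + 1))) hpt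
  have s0 : ∫ x, (ψ x ^ (2 * (m + 2)) * PP h f x ^ q * HH h f x +
      ψ x ^ (2 * (m + 2)) * PP h f x ^ q * RT h W f x) ∂(vol h) ≤
      ∫ x, ((27 / 32) * (ψ x ^ (2 * (m + 2)) * PP h f x ^ q * HH h f x) +
        (C1 + n * C2 + 1) * (ψ x ^ (2 * (m + 1)) * PP h f x ^ (q + 1) +
          ψ x ^ (2 * (m + 2)) * PP h f x ^ q)) ∂(vol h) := by
    refine le_trans (le_of_eq ?_) hint
    have e0 := integral_add j0 j2
    rw [← hid, ← hta, ← integral_add i7 i6] at e0
    refine Eq.trans ?_ e0.symm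
    refine integral_congr_ae (Eventually.of_forall fun x => ?_)
    simp only
    unfold RT
    rw [pow_succ (PP h f x) q]
    ring
  have s1 : ∫ x, ((27 / 32) * (ψ x ^ (2 * (m + 2)) * PP h f x ^ q * HH h f x) +
        (C1 + n * C2 + 1) * (ψ x ^ (2 * (m + 1)) * PP h f x ^ (q + 1) +
          ψ x ^ (2 * (m + 2)) * PP h f x ^ q)) ∂(vol h) =
      (27 / 32) * ∫ x, ψ x ^ (2 * (m + 2)) * PP h f x ^ q * HH h f x ∂(vol h) +
        (C1 + n * C2 + 1) * (aI h f ψ (m + 1) (q + 1) + aI h f ψ (m + 2) q) := by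
    have k1 : Integrable (fun x => (27 / 32) * (ψ x ^ (2 * (m + 2)) * PP h f x ^ q * HH h f x))
        (vol h) := i1.const_mul _
    have k2 : Integrable (fun x => ψ x ^ (2 * (m + 1)) * PP h f x ^ (q + 1) +
          ψ x ^ (2 * (m + 2)) * PP h f x ^ q) (vol h) := i4.add i5
    have k3 : Integrable (fun x => (C1 + n * C2 + 1) * (ψ x ^ (2 * (m + 1)) * PP h f x ^ (q + 1) +
          ψ x ^ (2 * (m + 2)) * PP h f x ^ q)) (vol h) := k2.const_mul _
    rw [integral_add k1 k3, integral_const_mul, integral_const_mul, integral_add i4 i5]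
    rfl
  have s3 : bI2 h f ψ W (m + 2) q =
      ∫ x, ψ x ^ (2 * (m + 2)) * PP h f x ^ q * HH h f x ∂(vol h) +
        ∫ x, ψ x ^ (2 * (m + 2)) * PP h f x ^ q * RT h W f x ∂(vol h) := by
    unfold bI2
    rw [← integral_add i1 i2]
    refine integral_congr_ae (Eventually.of_forall fun x => ?_)
    simp only
    ring
  have s4 : 0 ≤ ∫ x, ψ x ^ (2 * (m + 2)) * PP h f x ^ q * RT h W f x ∂(vol h) := by
    refine integral_nonneg fun x => ?_
    by_cases hψ : ψ x = 0
    · have h1 : 2 * (m + 2) ≠ 0 := by omega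
      simp [hψ, h1]
    · have h1 := RT_nonneg (f := f) L.met (L.good x hψ)
      have h2 := PP_nonneg L.met f x
      have h3 := L.nonneg x
      simp only [Pi.zero_apply]
      positivity
  rw [integral_add i1 i2, s1] at s0
  rw [s3]
  nlinarith [s0, s4]

end Pool.Agent.Lib.MP_df705a_gt.Kat
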