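import Pool.Agent.Lib.MP_df705a_gt.Mg.G028
import Pool.Agent.Lib.MP_df705a_gt.Mg.G019

/-!
# Lower bounds of the Ricci curvature in the sense of Kato: the interpolation inequality
-/

open scoped Manifold ContDiff Topology
open Set Bundle Module Filter MeasureTheory

noncomputable section

set_option linter.unusedSectionVars false

namespace Pool.Agent.Lib.MP_df705a_gt.Kat

open Pool.Agent.Lib.MP_df705a_gt.Twist Pool.Agent.Lib.MP_df705a_gt.Perm
open Pool.Agent.Lib.MP_df705a_gt.Pin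
open Pool.Agent.Lib.MP_df705a_gt.Coll (trM ipM)
open Pool.Agent.Lib.MP_df705a_gt.Coll.T (ddC mat pull RM SmF)

/-- `∫ ψ^M P^(q+2) ≤ C (∫ ψ^(M-2) P^(q+1) + ∫ ψ^M P^q (H + R + P))`. Proof: `integral_P` with
`v = ψ^M P^(q+1)`, `Loc.gradC_weight`, `real_i3` summed over `i` (`n = finrank ℝ E`): the integrand is at most
`(1/2) ψ^M P^(q+2) + C ψ^(M-2) P^(q+1) + C ψ^M P^q H`. -/
theorem exists_aI_le (E : Type*) [NormedAddCommGroup E] [NormedSpace ℝ E] [FiniteDimensional ℝ E]
    [MeasurableSpace E] [BorelSpace E] (K c : ℝ) (m q : ℕ) : ∃ C : ℝ, 0 ≤ C ∧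
    ∀ (h : Curv.Coeff E) (f : Fin (finrank ℝ E) → E → ℝ) (ψ W : E → ℝ), Loc2 h f ψ W K c →
      aI h f ψ (m + 2) (q + 2) ≤ C * (aI h f ψ (m + 1) (q + 1) + bI2 h f ψ W (m + 2) q) := by
  classical
  set n : ℝ := (finrank ℝ E : ℝ) with hn
  have hn0 : (0 : ℝ) ≤ n := Nat.cast_nonneg _
  obtain ⟨K', hK', hKK⟩ : ∃ K' : ℝ, 0 ≤ K' ∧ K ≤ K' := ⟨max K 0, le_max_right _ _, le_max_left _ _⟩
  set C1 : ℝ := 2 * K' + 4 * (n + 1) * (2 * (m + 2 : ℝ)) ^ 2 * c ^ 2 with hC1
  set C2 : ℝ := 16 * (n + 1) * (q + 1 : ℝ) ^ 2 with hC2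
  have hC1' : 0 ≤ C1 := by positivity
  have hC2' : 0 ≤ C2 := by positivity
  refine ⟨2 * n * C1 + 2 * n * C2, by positivity, fun h f ψ W L => ?_⟩
  have hv := L.contDiff_weight (m + 2) (q + 1)
  have hvc := L.hasCompactSupport_weight (m := m + 2) (by omega) (q + 1)
  have hid := integral_P L.met L.sm hv hvc
  have hHc := continuous_HH L.met L.sm
  have hRc := continuous_RR L.met L.sm
  have hPc : Continuous (PP h f) := (contDiff_PP L.met L.sm).continuous
  -- integrability
  have i1 : Integrable (fun x => ψ x ^ (2 * (m + 2)) * PP h f x ^ q * HH h f x) (vol h) :=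
    integrable_vol L.met ((L.contDiff_weight (m + 2) q).continuous.mul hHc)
      (L.hasCompactSupport_weight (m := m + 2) (by omega) q).mul_right
  have i2 : Integrable (fun x => ψ x ^ (2 * (m + 2)) * PP h f x ^ q *
      (HH h f x + RT h W f x)) (vol h) :=
    integrable_vol L.met ((L.contDiff_weight (m + 2) q).continuous.mul (hHc.add
      (continuous_RT L.met L.sm L.wsm L.wpos)))
      (L.hasCompactSupport_weight (m := m + 2) (by omega) q).mul_right
  have i3 : Integrable (fun x => ψ x ^ (2 * (m + 2)) * PP h f x ^ (q + 2)) (vol h) :=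
    integrable_vol L.met (L.contDiff_weight (m + 2) (q + 2)).continuous
      (L.hasCompactSupport_weight (by omega) _)
  have i4 : Integrable (fun x => ψ x ^ (2 * (m + 1)) * PP h f x ^ (q + 1)) (vol h) :=
    integrable_vol L.met (L.contDiff_weight (m + 1) (q + 1)).continuous
      (L.hasCompactSupport_weight (by omega) _)
  -- pointwise estimate
  have hpt : ∀ x, (- ∑ i, ((ψ x ^ (2 * (m + 2)) * PP h f x ^ (q + 1)) * f i x * lapC h (f i) x +
        f i x * gradC h (fun x => ψ x ^ (2 * (m + 2)) * PP h f x ^ (q + 1)) (f i) x)) ≤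
      (1 / 2) * (ψ x ^ (2 * (m + 2)) * PP h f x ^ (q + 2)) +
        (n * C1 * (ψ x ^ (2 * (m + 1)) * PP h f x ^ (q + 1)) +
          n * C2 * (ψ x ^ (2 * (m + 2)) * PP h f x ^ q * HH h f x)) := by
    intro x
    have hP0 := PP_nonneg L.met f x
    have hH0 := HH_nonneg L.met f x
    have hs0 := L.nonneg x
    have hgPP := S3F4Aux.sqrt_PP_le L.met L.sm x
    have hgψ : √ (gradC h ψ ψ x) ≤ c := by
      rw [Real.sqrt_le_left L.c0]
      exact L.grad x
    have hgf := S3F4Aux.sqrt_gf_le L.met f x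
    have e2 : ∀ i, -((ψ x ^ (2 * (m + 2)) * PP h f x ^ (q + 1)) * f i x * lapC h (f i) x +
        f i x * gradC h (fun x => ψ x ^ (2 * (m + 2)) * PP h f x ^ (q + 1)) (f i) x) ≤
        (1 / (2 * (n + 1))) * (ψ x ^ (2 * (m + 2)) * PP h f x ^ (q + 2)) +
        C1 * (ψ x ^ (2 * (m + 1)) * PP h f x ^ (q + 1)) +
        C2 * (ψ x ^ (2 * (m + 2)) * PP h f x ^ q * HH h f x) := by
      intro i
      rw [L.gradC_weight (m + 2) (q + 1) (f i) x]
      by_cases hψ : ψ x = 0
      · have h1 : 2 * (m + 2) ≠ 0 := by omega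
        have h2 : 2 * (m + 1) ≠ 0 := by omega
        have h3 : 2 * (m + 2) - 1 ≠ 0 := by omega
        simp [hψ, h1, h2, h3]
      · have ha' : |gradC h ψ (f i) x| ≤ c * √ (PP h f x) :=
          (abs_gradC_le L.met ψ (f i) x).trans
            (mul_le_mul hgψ (hgf i) (Real.sqrt_nonneg _) L.c0)
        have hb' : |gradC h (PP h f) (f i) x| ≤ 2 * (√ (PP h f x) * √ (HH h f x)) *
            √ (PP h f x) :=
          (abs_gradC_le L.met (PP h f) (f i) x).trans
            (mul_le_mul hgPP (hgf i) (Real.sqrt_nonneg _) (by positivity))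
        have := real_i3 m q hs0 (L.le_one x) hP0 hH0 L.c0 hK' (by linarith : (1 : ℝ) ≤ n + 1)
          (L.two x hψ i) ((L.lap x hψ i).trans hKK) ha' hb'
        refine le_trans (le_of_eq ?_) this
        rw [show q + 1 - 1 = q from rfl]
    have e3 := Finset.sum_le_sum (s := Finset.univ) fun i _ => e2 i
    rw [Finset.sum_const, Finset.card_univ, Fintype.card_fin, nsmul_eq_mul, ← hn,
      Finset.sum_neg_distrib] at e3
    set A := ψ x ^ (2 * (m + 2)) * PP h f x ^ (q + 2) with hA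
    set B := ψ x ^ (2 * (m + 1)) * PP h f x ^ (q + 1) with hB
    set D := ψ x ^ (2 * (m + 2)) * PP h f x ^ q * HH h f x with hD
    have hA0 : 0 ≤ A := by positivity
    have e4 : n * ((1 / (2 * (n + 1))) * A + C1 * B + C2 * D) ≤
        (1 / 2) * A + (n * C1 * B + n * C2 * D) := by
      have h1 : n * (1 / (2 * (n + 1))) ≤ 1 / 2 := by
        rw [mul_one_div, div_le_div_iff₀ (by positivity) (by norm_num)]
        linarith
      nlinarith [mul_le_mul_of_nonneg_right h1 hA0]
    exact e3.trans e4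
  -- integrate
  have hint : ∫ x, (- ∑ i, ((ψ x ^ (2 * (m + 2)) * PP h f x ^ (q + 1)) * f i x * lapC h (f i) x +
        f i x * gradC h (fun x => ψ x ^ (2 * (m + 2)) * PP h f x ^ (q + 1)) (f i) x)) ∂(vol h) ≤
      ∫ x, ((1 / 2) * (ψ x ^ (2 * (m + 2)) * PP h f x ^ (q + 2)) +
        (n * C1 * (ψ x ^ (2 * (m + 1)) * PP h f x ^ (q + 1)) +
          n * C2 * (ψ x ^ (2 * (m + 2)) * PP h f x ^ q * HH h f x))) ∂(vol h) := by
    refine integral_mono ?_ ((i3.const_mul _).add ((i4.const_mul _).add (i1.const_mul _))) hpt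
    refine (integrable_finsetSum _ fun i _ => ?_).neg
    refine Integrable.add ?_ ?_
    · exact integrable_vol L.met
        ((hv.continuous.mul (L.sm i).continuous).mul (contDiff_lapC L.met (L.sm i)).continuous)
        hvc.mul_right.mul_right
    · exact integrable_vol L.met
        ((L.sm i).continuous.mul (contDiff_gradC L.met hv (L.sm i)).continuous)
        (hasCompactSupport_gradC hvc _).mul_left
  rw [← hid] at hint
  have s1 : ∫ x, ((1 / 2) * (ψ x ^ (2 * (m + 2)) * PP h f x ^ (q + 2)) +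
        (n * C1 * (ψ x ^ (2 * (m + 1)) * PP h f x ^ (q + 1)) +
          n * C2 * (ψ x ^ (2 * (m + 2)) * PP h f x ^ q * HH h f x))) ∂(vol h) =
      (1 / 2) * aI h f ψ (m + 2) (q + 2) + (n * C1 * aI h f ψ (m + 1) (q + 1) +
        n * C2 * ∫ x, ψ x ^ (2 * (m + 2)) * PP h f x ^ q * HH h f x ∂(vol h)) := by
    have k1 : Integrable (fun x => (1 / 2) * (ψ x ^ (2 * (m + 2)) * PP h f x ^ (q + 2)))
        (vol h) := i3.const_mul _
    have k2 : Integrable (fun x => n * C1 * (ψ x ^ (2 * (m + 1)) * PP h f x ^ (q + 1))) (vol h) :=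
      i4.const_mul _
    have k3 : Integrable (fun x => n * C2 * (ψ x ^ (2 * (m + 2)) * PP h f x ^ q * HH h f x))
        (vol h) := i1.const_mul _
    have k4 : Integrable (fun x => n * C1 * (ψ x ^ (2 * (m + 1)) * PP h f x ^ (q + 1)) +
      n * C2 * (ψ x ^ (2 * (m + 2)) * PP h f x ^ q * HH h f x)) (vol h) := k2.add k3
    rw [integral_add k1 k4, integral_add k2 k3, integral_const_mul, integral_const_mul,
      integral_const_mul]
    rfl
  have s2 : ∫ x, ψ x ^ (2 * (m + 2)) * PP h f x ^ (q + 1) * PP h f x ∂(vol h) =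
      aI h f ψ (m + 2) (q + 2) := by
    unfold aI
    refine integral_congr_ae (Eventually.of_forall fun x => ?_)
    simp only
    rw [pow_succ (PP h f x) (q + 1)]
    ring
  have s3 : ∫ x, ψ x ^ (2 * (m + 2)) * PP h f x ^ q * HH h f x ∂(vol h) ≤
      bI2 h f ψ W (m + 2) q := by
    unfold bI2
    refine integral_mono i1 i2 fun x => ?_
    simp only
    by_cases hψ : ψ x = 0
    · have h1 : 2 * (m + 2) ≠ 0 := by omega
      simp [hψ, h1]
    · have h1 := RT_nonneg (f := f) L.met (L.good x hψ)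
      have h2 := PP_nonneg L.met f x
      have h3 := L.nonneg x
      exact mul_le_mul_of_nonneg_left (by linarith) (by positivity)
  have s4 : 0 ≤ ∫ x, ψ x ^ (2 * (m + 2)) * PP h f x ^ q * HH h f x ∂(vol h) := by
    refine integral_nonneg fun x => ?_
    have h1 := HH_nonneg L.met f x
    have h2 := PP_nonneg L.met f x
    have h3 := L.nonneg x
    simp only [Pi.zero_apply]
    positivity
  have s7 := L.aI_nonneg (m + 1) (q + 1)
  rw [s1, s2] at hint
  have s8 : n * C2 * ∫ x, ψ x ^ (2 * (m + 2)) * PP h f x ^ q * HH h f x ∂(vol h) ≤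
      n * C2 * bI2 h f ψ W (m + 2) q := mul_le_mul_of_nonneg_left s3 (by positivity)
  have s9 : 0 ≤ bI2 h f ψ W (m + 2) q := s4.trans s3
  have t1 : 0 ≤ n * C1 * bI2 h f ψ W (m + 2) q := by positivity
  have t2 : 0 ≤ n * C2 * aI h f ψ (m + 1) (q + 1) := by positivity
  nlinarith [hint, s8, t1, t2]

/-- The case `q = 0` (`real_i4`). -/
theorem exists_aI_one_le (E : Type*) [NormedAddCommGroup E] [NormedSpace ℝ E]
    [FiniteDimensional ℝ E] [MeasurableSpace E] [BorelSpace E] (K c : ℝ) (m : ℕ) : ∃ C : ℝ, 0 ≤ C ∧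
    ∀ (h : Curv.Coeff E) (f : Fin (finrank ℝ E) → E → ℝ) (ψ W : E → ℝ), Loc2 h f ψ W K c →
      aI h f ψ (m + 2) 1 ≤ C * aI h f ψ (m + 1) 0 := by
  classical
  set n : ℝ := (finrank ℝ E : ℝ) with hn
  have hn0 : (0 : ℝ) ≤ n := Nat.cast_nonneg _
  obtain ⟨K', hK', hKK⟩ : ∃ K' : ℝ, 0 ≤ K' ∧ K ≤ K' := ⟨max K 0, le_max_right _ _, le_max_left _ _⟩
  set C1 : ℝ := 2 * K' + 4 * (n + 1) * (2 * (m + 2 : ℝ)) ^ 2 * c ^ 2 with hC1
  have hC1' : 0 ≤ C1 := by positivity
  refine ⟨2 * n * C1, by positivity, fun h f ψ W L => ?_⟩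
  have hv := L.contDiff_weight (m + 2) 0
  have hvc := L.hasCompactSupport_weight (m := m + 2) (by omega) 0
  have hid := integral_P L.met L.sm hv hvc
  have hPc : Continuous (PP h f) := (contDiff_PP L.met L.sm).continuous
  -- integrability
  have i3 : Integrable (fun x => ψ x ^ (2 * (m + 2)) * PP h f x ^ 1) (vol h) :=
    integrable_vol L.met (L.contDiff_weight (m + 2) 1).continuous
      (L.hasCompactSupport_weight (by omega) _)
  have i4 : Integrable (fun x => ψ x ^ (2 * (m + 1)) * PP h f x ^ 0) (vol h) :=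
    integrable_vol L.met (L.contDiff_weight (m + 1) 0).continuous
      (L.hasCompactSupport_weight (by omega) _)
  -- pointwise estimate
  have hpt : ∀ x, (- ∑ i, ((ψ x ^ (2 * (m + 2)) * PP h f x ^ 0) * f i x * lapC h (f i) x +
        f i x * gradC h (fun x => ψ x ^ (2 * (m + 2)) * PP h f x ^ 0) (f i) x)) ≤
      (1 / 2) * (ψ x ^ (2 * (m + 2)) * PP h f x ^ 1) +
        n * C1 * (ψ x ^ (2 * (m + 1)) * PP h f x ^ 0) := by
    intro x
    have hP0 := PP_nonneg L.met f x
    have hs0 := L.nonneg x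
    have hgψ : √ (gradC h ψ ψ x) ≤ c := by
      rw [Real.sqrt_le_left L.c0]
      exact L.grad x
    have hgf := S3F4Aux.sqrt_gf_le L.met f x
    have e2 : ∀ i, -((ψ x ^ (2 * (m + 2)) * PP h f x ^ 0) * f i x * lapC h (f i) x +
        f i x * gradC h (fun x => ψ x ^ (2 * (m + 2)) * PP h f x ^ 0) (f i) x) ≤
        (1 / (2 * (n + 1))) * (ψ x ^ (2 * (m + 2)) * PP h f x ^ 1) +
        C1 * (ψ x ^ (2 * (m + 1)) * PP h f x ^ 0) := by
      intro i
      rw [L.gradC_weight (m + 2) 0 (f i) x]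
      by_cases hψ : ψ x = 0
      · have h1 : 2 * (m + 2) ≠ 0 := by omega
        have h2 : 2 * (m + 1) ≠ 0 := by omega
        have h3 : 2 * (m + 2) - 1 ≠ 0 := by omega
        simp [hψ, h1, h2, h3]
      · have ha' : |gradC h ψ (f i) x| ≤ c * √ (PP h f x) :=
          (abs_gradC_le L.met ψ (f i) x).trans
            (mul_le_mul hgψ (hgf i) (Real.sqrt_nonneg _) L.c0)
        have := real_i4 m hs0 (L.le_one x) hP0 L.c0 hK' (by linarith : (1 : ℝ) ≤ n + 1)
          (L.two x hψ i) ((L.lap x hψ i).trans hKK) ha'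
        refine le_trans (le_of_eq ?_) (this.trans (le_of_eq ?_))
        · simp only [pow_zero, mul_one, Nat.cast_zero, zero_mul, add_zero]
        · simp only [pow_zero, mul_one, pow_one, hC1]
    have e3 := Finset.sum_le_sum (s := Finset.univ) fun i _ => e2 i
    rw [Finset.sum_const, Finset.card_univ, Fintype.card_fin, nsmul_eq_mul, ← hn,
      Finset.sum_neg_distrib] at e3
    set A := ψ x ^ (2 * (m + 2)) * PP h f x ^ 1 with hA
    set B := ψ x ^ (2 * (m + 1)) * PP h f x ^ 0 with hB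
    have hA0 : 0 ≤ A := by positivity
    have e4 : n * ((1 / (2 * (n + 1))) * A + C1 * B) ≤ (1 / 2) * A + n * C1 * B := by
      have h1 : n * (1 / (2 * (n + 1))) ≤ 1 / 2 := by
        rw [mul_one_div, div_le_div_iff₀ (by positivity) (by norm_num)]
        linarith
      nlinarith [mul_le_mul_of_nonneg_right h1 hA0]
    exact e3.trans e4
  -- integrate
  have hint : ∫ x, (- ∑ i, ((ψ x ^ (2 * (m + 2)) * PP h f x ^ 0) * f i x * lapC h (f i) x +
        f i x * gradC h (fun x => ψ x ^ (2 * (m + 2)) * PP h f x ^ 0) (f i) x)) ∂(vol h) ≤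
      ∫ x, ((1 / 2) * (ψ x ^ (2 * (m + 2)) * PP h f x ^ 1) +
        n * C1 * (ψ x ^ (2 * (m + 1)) * PP h f x ^ 0)) ∂(vol h) := by
    refine integral_mono ?_ ((i3.const_mul _).add (i4.const_mul _)) hpt
    refine (integrable_finsetSum _ fun i _ => ?_).neg
    refine Integrable.add ?_ ?_
    · exact integrable_vol L.met
        ((hv.continuous.mul (L.sm i).continuous).mul (contDiff_lapC L.met (L.sm i)).continuous)
        hvc.mul_right.mul_right
    · exact integrable_vol L.met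
        ((L.sm i).continuous.mul (contDiff_gradC L.met hv (L.sm i)).continuous)
        (hasCompactSupport_gradC hvc _).mul_left
  rw [← hid] at hint
  have s1 : ∫ x, ((1 / 2) * (ψ x ^ (2 * (m + 2)) * PP h f x ^ 1) +
        n * C1 * (ψ x ^ (2 * (m + 1)) * PP h f x ^ 0)) ∂(vol h) =
      (1 / 2) * aI h f ψ (m + 2) 1 + n * C1 * aI h f ψ (m + 1) 0 := by
    have k1 : Integrable (fun x => (1 / 2) * (ψ x ^ (2 * (m + 2)) * PP h f x ^ 1))
        (vol h) := i3.const_mul _
    have k2 : Integrable (fun x => n * C1 * (ψ x ^ (2 * (m + 1)) * PP h f x ^ 0)) (vol h) :=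
      i4.const_mul _
    rw [integral_add k1 k2, integral_const_mul, integral_const_mul]
    rfl
  have s2 : ∫ x, ψ x ^ (2 * (m + 2)) * PP h f x ^ 0 * PP h f x ∂(vol h) =
      aI h f ψ (m + 2) 1 := by
    unfold aI
    refine integral_congr_ae (Eventually.of_forall fun x => ?_)
    simp only [pow_zero, mul_one, pow_one]
  rw [s1, s2] at hint
  nlinarith [hint]

end Pool.Agent.Lib.MP_df705a_gt.Kat
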