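import Pool.Agent.Lib.MP_df705a_gt.Kat.Df
import Pool.Agent.Lib.MP_df705a_gt.Mg.G029

/-!
# The bad set of a metric of positive scalar curvature is as large as the manifold, Kato version
-/

open scoped Manifold ContDiff Topology
open Set Bundle Module Filter MeasureTheory

noncomputable section

namespace Pool.Agent.Lib.MP_df705a_gt.Kat

open Pool.Agent.Lib.MP_df705a_gt.Twist Pool.Agent.Lib.MP_df705a_gt.Perm
open Pool.Agent.Lib.MP_df705a_gt.Pin
open Pool.Agent.Lib.MP_df705a_gt.Coll (Met)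

/-- **The bad set of a metric of positive scalar curvature is as large as the manifold**, Kato
version. -/
theorem essential_kato.{v} (m : ℕ) (AW : ℝ) : ∃ C : ℝ, 0 < C ∧ ∀ (M : Type v) [TopologicalSpace M]
    [ChartedSpace (EuclideanSpace ℝ (Fin (m + 1))) M]
    [IsManifold 𝓘(ℝ, EuclideanSpace ℝ (Fin (m + 1))) ∞ M] [CompactSpace M]
    (q : EuclideanSpace ℝ (Fin (m + 2)) → M) (s : EuclideanSpace ℝ (Fin (m + 2)) → ℝ),
    StableCover (EuclideanSpace ℝ (Fin (m + 1))) q s →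
    ∀ (g : Met (EuclideanSpace ℝ (Fin (m + 1))) M) (ρ : M → ℝ), (∀ x, 0 < ρ x) →
      ContMDiff 𝓘(ℝ, EuclideanSpace ℝ (Fin (m + 1))) 𝓘(ℝ, ℝ) 1 ρ → GradLeOne g ρ →
      ∀ w : M → ℝ, Sm (EuclideanSpace ℝ (Fin (m + 1))) w → (∀ x, 1 ≤ w x) → (∀ x, w x ≤ AW) →
      ∀ (γ : ℝ) (u : M → ℝ), 0 ≤ γ → Sm (EuclideanSpace ℝ (Fin (m + 1))) u → (∀ x, 0 < u x) →
      ∀ (A : Set M) (U : Fin m → Set M), IsOpen A → (∀ i, IsOpen (U i)) →
        (∀ x : A, ¬ (piImage A x).FiniteIndex) → (∀ i, ∀ x : U i, Finite (piImage (U i) x)) →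
        ∃ b x : M, BadK g C γ ρ w u b ∧ b ∈ mball g x (ρ x) ∧ x ∉ A ∧
          ∀ i, ¬ mball g x (ρ x) ⊆ U i := by
  obtain ⟨C₀, hC₀, hwd⟩ := E5_width2 (m + 2) (by omega) AW
  set ε : ℝ := 1 / (64 * (m + 1) ^ 2) with hε
  have hε0 : 0 < ε := by positivity
  have hε2 : ε ≤ 1 / 2 := by
    rw [hε, div_le_div_iff₀ (by positivity) (by positivity)]
    have : (1 : ℝ) ≤ (m + 1) ^ 2 := one_le_pow₀ (by linarith [Nat.cast_nonneg (α := ℝ) m])
    linarith
  have hε1 : ε ≤ 1 := by linarith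
  refine ⟨C₀ / ε ^ 2, by positivity, ?_⟩
  intro M _ _ _ _ q s H g ρ hρ0 hρ hρ1 w hw hw1 hwA γ u hγ hu hu0 A U hA hU hAi hUf
  by_contra hno
  push Not at hno
  have : LocallyConnectedSpace M :=
    ChartedSpace.locallyConnectedSpace (EuclideanSpace ℝ (Fin (m + 1))) M
  have hh := isMetric_st g H
  obtain ⟨K, G, G', hG⟩ := exists_coCpt g H
  have hp := proper_of_coCpt hh hG
  have hd := isD_dh hh hp
  set h := st g q s with hst
  set r : EuclideanSpace ℝ (Fin (m + 2)) → ℝ := fun y => ρ (q y) with hr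
  have hfr0 : finrank ℝ (EuclideanSpace ℝ (Fin (m + 2))) = m + 2 := by simp
  have hfr1 : finrank ℝ (EuclideanSpace ℝ (Fin (m + 1))) = m + 1 := by simp
  have hwt : Wt (w ∘ q) AW := ⟨contDiff_comp_q' H hw, fun y => hw1 (q y), fun y => hwA (q y)⟩
  set B : Set M := {b | BadK g (C₀ / ε ^ 2) γ ρ w u b} with hB
  have hlip : ∀ x y, |r x - r y| ≤ dh h x y := fun x y =>
    dual hh (contDiff_comp_q H hρ) (fun x u => fderiv_comp_q_le g H hρ hρ1 x u) x y
  have hr0 : ∀ x, 0 < r x := fun x => hρ0 (q x)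
  obtain ⟨J, hJ, V, Y, hVc, hVl, hYc, hcov, hm, hmY, hdiam, hYB⟩ :=
    hwd h (w ∘ q) hh hp hwt (fun y => ε * r y) (fun y => mul_pos hε0 (hr0 y)) (fun x y => by
      rw [← mul_sub, abs_mul, abs_of_pos hε0]
      calc ε * |r x - r y| ≤ 1 * |r x - r y| := mul_le_mul_of_nonneg_right hε1 (abs_nonneg _)
        _ ≤ dh h x y := by rw [one_mul]; exact hlip x y) (q ⁻¹' B)
    (fun y hy => by
      have h1 : 0 ≤ tau g ρ w (q y) ∧ MRicGe g (tau g ρ w (q y)) (q y) := by
        by_contra hcon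
        exact hy (Or.inl hcon)
      have h3 := hr0 y
      have h4 : ta h (w ∘ q) (1 / r y ^ 2) y = tau g ρ w (q y) := by
        unfold ta tau
        rw [lap_st g H hw y, hfr0, hfr1]
        have h5 : ((m + 2 : ℕ) : ℝ) = ((m + 1 : ℕ) : ℝ) + 1 := by push_cast; ring
        rw [h5]
        rfl
      have h6 : Gd h (w ∘ q) (1 / r y ^ 2) y := by
        unfold Gd
        rw [h4]
        exact ⟨h1.1, ricGe_st g H h1.1 h1.2⟩
      refine h6.mono hh ?_
      show 1 / r y ^ 2 ≤ 1 / (ε * r y) ^ 2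
      apply one_div_le_one_div_of_le (by positivity)
      exact pow_le_pow_left₀ (by positivity) (mul_le_of_le_one_left h3.le hε1) 2)
    γ (u ∘ q) hγ (contDiff_comp_q' H hu) (fun y => hu0 (q y)) (by
      intro y hy
      have h1 : C₀ / ε ^ 2 * (1 + γ) / ρ (q y) ^ 2 * u (q y) < Scal g (q y) * u (q y) -
          γ * Lap g u (q y) := by
        by_contra hcon
        exact hy (Or.inr (not_lt.1 hcon))
      rw [lap_st g H hu y, scal_st g H y]
      have h2 : C₀ * (1 + γ) / (ε * r y) ^ 2 = C₀ / ε ^ 2 * (1 + γ) / ρ (q y) ^ 2 := by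
        have h3 := hr0 y
        show C₀ * (1 + γ) / (ε * r y) ^ 2 = C₀ / ε ^ 2 * (1 + γ) / r y ^ 2
        field_simp
      rw [h2]
      show γ * Lap g u (q y) < (Scal g (q y) - C₀ / ε ^ 2 * (1 + γ) / ρ (q y) ^ 2) * u (q y)
      linarith)
  have hq : Continuous q := H.smooth_q.continuous
  obtain ⟨D, hD⟩ : ∃ D : ℝ, ∀ x, ρ x ≤ D := by
    obtain ⟨D, hD⟩ := isCompact_univ.bddAbove_image (f := ρ) hρ.continuous.continuousOn
    exact ⟨D, fun x => hD ⟨x, mem_univ x, rfl⟩⟩
  obtain ⟨r₀, hr₀, hr₀r⟩ : ∃ r₀ : ℝ, 0 < r₀ ∧ ∀ x, r₀ ≤ ρ x := by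
    have : Nonempty M := ⟨q 0⟩
    obtain ⟨x₀, hx₀⟩ := hρ.continuous.exists_forall_le' (q 0) (by
      rw [Filter.cocompact_eq_bot]
      exact Filter.eventually_bot)
    exact ⟨ρ x₀, hρ0 x₀, hx₀⟩
  -- the capped distances
  let f : Fin m → EuclideanSpace ℝ (Fin (m + 2)) → ℝ := fun i => capD (dh h) r (q ⁻¹' U i)
  let fA : EuclideanSpace ℝ (Fin (m + 2)) → ℝ := capD (dh h) r (q ⁻¹' A)
  have hcont : ∀ {f : EuclideanSpace ℝ (Fin (m + 2)) → ℝ}, (∀ x y, |f x - f y| ≤ dh h x y) →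
      Continuous f := fun {f} hf =>
    continuous_of_lip (a := 1) hd (fun x y => by rw [one_mul]; exact hf x y)
  have hfl : ∀ i x y, |f i x - f i y| ≤ dh h x y := fun i =>
    capD_lip hd (fun x => (hr0 x).le) hlip
  have hAl : ∀ x y, |fA x - fA y| ≤ dh h x y := capD_lip hd (fun x => (hr0 x).le) hlip
  have hbound : ∀ i, ∃ R : ℝ, ∀ x, r₀ / (16 * (m + 1)) ≤ f i x → ∀ x', r₀ / (16 * (m + 1)) ≤ f i x' →
      x' ∈ connectedComponentIn (q ⁻¹' U i) x → ‖s x - s x'‖ ≤ 2 * D → dh h x x' ≤ R := by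
    intro i
    obtain ⟨R, hR⟩ := bounded_thick g H (hU i) (fun x => Set.toFinite _)
      (T := {x | r₀ / (16 * (m + 1)) ≤ f i x}) (isClosed_le continuous_const (hcont (hfl i)))
      (fun x hx => mem_of_capD_pos hd (fun x => (hr0 x).le) (lt_of_lt_of_le (by positivity) hx))
      (fun x z hxz hx => by
        show r₀ / (16 * (m + 1)) ≤ f i z
        have h1 : f i z = f i x := capD_fibre g H ρ (U i) hxz
        rw [h1]
        exact hx) (2 * D)
    exact ⟨R, fun x hx x' hx' => hR x hx x' hx'⟩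
  choose R hR using hbound
  obtain ⟨J', hJ', V', R', hV'l, hV'c, hcov', hm', hmY', hR'⟩ :=
    exists_regrouped (d := dh h) hd (isPreconnected_ball hh hp) (f := f) (fA := fA) (r := r)
      (σ := s) (D := D) (r₀ := r₀) (R₀ := ∑ i, |R i|) hr₀ (fun x => hr₀r (q x)) (fun x => hD (q x))
      hlip (fun i x => capD_nonneg hd (fun x => (hr0 x).le) x)
      (fun i x => capD_le hd (fun x => (hr0 x).le) x) hfl
      (fun x y => by
        rw [← Real.norm_eq_abs]
        exact norm_s_sub_le g H hp x y)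
      (by
        intro i C hC hCf x hx y hy hxf hyf hσ
        refine (hR i x hxf y hyf ?_ (by rw [Real.norm_eq_abs]; exact hσ)).trans
          ((le_abs_self _).trans (Finset.single_le_sum (f := fun i => |R i|)
            (fun j _ => abs_nonneg _) (Finset.mem_univ i)))
        exact hC.subset_connectedComponentIn hx
          (fun z hz => mem_of_capD_pos hd (fun x => (hr0 x).le) (hCf z hz)) hy)
      (Y := Y) hVc hVl hYc hcov (fun x => hm x) (fun x hx => hmY x hx)
      (fun j x hx y hy => (hdiam j x hx y hy).trans (by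
        rw [hε]
        apply le_of_eq
        show 1 / (64 * ((m : ℝ) + 1) ^ 2) * r x = r x / (64 * (m + 1) ^ 2)
        ring))
      (by
        intro y hy
        obtain ⟨b, hb, hyb⟩ := hYB y hy
        have hry := hr0 y
        have hmd : ∀ x z, dh h x z < r x → mdist g (q x) (q z) < ENNReal.ofReal (ρ (q x)) := by
          intro x z hz
          exact (mdist_le_dh g H hp x z).trans_lt ((ENNReal.ofReal_lt_ofReal_iff (hr0 x)).2 hz)
        rcases le_or_gt (r y / 4) (fA y) with hyA | hyA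
        · exact Or.inl hyA
        · right
          obtain ⟨x, hxA, hxy⟩ := exists_of_capD_lt hyA (by linarith)
          have h2 := abs_le.1 (hlip y x)
          have h1 : dh h x b < r x := by
            have h3 : ε * r y ≤ 1 / 2 * r y := mul_le_mul_of_nonneg_right hε2 hry.le
            have h4 : dh h y b < ε * r y / 2 := hyb
            have h5 := hd.tri x y b
            rw [hd.comm x y] at h5
            linarith [h2.2]
          obtain ⟨i, hi⟩ := hno (q b) (q x) hb (hmd x b h1) hxA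
          have h6 : f i x = r x := capD_eq hd (fun x => (hr0 x).le) fun z hz => hi (hmd x z hz)
          refine ⟨i, ?_⟩
          have h7 := (abs_le.1 (hfl i y x)).1
          linarith [h2.2])
  -- the components of the preimage of `A`
  have hinf : ∀ x ∈ A, {C : Set (EuclideanSpace ℝ (Fin (m + 2))) |
      ∃ y ∈ q ⁻¹' connectedComponentIn A x,
        C = connectedComponentIn (q ⁻¹' connectedComponentIn A x) y}.Infinite := by
    intro x hx hfin
    have h1 := finiteIndex_of_finite H hA.connectedComponentIn ⟨x, mem_connectedComponentIn hx⟩ hfin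
    refine hAi ⟨x, hx⟩ ?_
    have h2 : (piImage (connectedComponentIn A x) ⟨x, mem_connectedComponentIn hx⟩).FiniteIndex :=
      h1
    exact Subgroup.finiteIndex_of_le (piImage_mono (connectedComponentIn_subset A x)
      ⟨x, mem_connectedComponentIn hx⟩)
  set T : Set (EuclideanSpace ℝ (Fin (m + 2))) := {x | r x / 4 ≤ fA x} with hT
  have hTc : IsClosed T := isClosed_le ((hcont hlip).div_const 4) (hcont hAl)
  have hTq : ∀ x z, q x = q z → x ∈ T → z ∈ T := by
    intro x z hxz hx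
    show r z / 4 ≤ fA z
    have h1 : fA z = fA x := capD_fibre g H ρ A hxz
    have h2 : r z = r x := by
      show ρ (q z) = ρ (q x)
      rw [hxz]
    rw [h1, h2]
    exact hx
  have hTA : T ⊆ q ⁻¹' A := fun x hx =>
    mem_of_capD_pos hd (fun x => (hr0 x).le) (lt_of_lt_of_le (by have := hr0 x; positivity) hx)
  have hZ : IsClosed (q '' T) := isClosed_image_fibre H hTc hTq
  have hZA : q '' T ⊆ A := by
    rintro _ ⟨x, hx, rfl⟩
    exact hTA hx
  have hfr : finrank ℝ (EuclideanSpace ℝ (Fin (m + 2))) = m + 2 := by simp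
  have : Nontrivial (EuclideanSpace ℝ (Fin (m + 2))) := by
    apply nontrivial_of_finrank_pos (R := ℝ)
    rw [hfr]; omega
  have hqA : IsOpen (q ⁻¹' A) := hA.preimage hq
  let I : Type := {C : Set (EuclideanSpace ℝ (Fin (m + 2))) // ∃ y ∈ q ⁻¹' A,
    C = connectedComponentIn (q ⁻¹' A) y}
  refine no_mixed_cover hd hG (J := J') (I := I) (V := V') (Y := {x ∈ Y | r x / 4 ≤ fA x})
    (W := fun i => i.1) hV'l hV'c (hYc.inter hTc) hcov'
    (fun x => by rw [hfr]; exact hm' x) (fun x hx => by rw [hfr]; exact hmY' x hx) ?_ ?_ ?_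
    (D := R') hR' ?_
  · rintro ⟨C, y, hy, rfl⟩
    exact hqA.connectedComponentIn
  · rintro ⟨C, y, hy, rfl⟩ ⟨C', y', hy', rfl⟩ hne
    rw [Set.disjoint_left]
    intro z hz hz'
    refine hne (Subtype.ext ?_)
    show connectedComponentIn (q ⁻¹' A) y = connectedComponentIn (q ⁻¹' A) y'
    rw [connectedComponentIn_eq hz, connectedComponentIn_eq hz']
  · intro y hy
    exact mem_iUnion.2 ⟨⟨_, y, hTA hy.2, rfl⟩, mem_connectedComponentIn (hTA hy.2)⟩
  · rintro ⟨C, y, hy, rfl⟩ R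
    obtain ⟨z, hz⟩ := sparse_components g H hA hZ hZA hinf y hy R
    exact ⟨z, fun x hx => hz x ⟨⟨x, hx.1.2, rfl⟩, hx.2⟩⟩

end Pool.Agent.Lib.MP_df705a_gt.Kat
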